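import Pool.Agent.K7.H6.PT.Family

/-!
# The class of the varieties for which Q1 holds is closed under `p`-adic limits

The setting and the notions `Tilting`, `BaseField`, `IsConeOver`, `DimGE`, `DimLEOver`, `Approximable`,
`IsToricUnion` are those of the starting files `AllPerfectoidFields`, `KummerCoverings`: `K` is a
perfectoid field of characteristic `0`, `E = K♭` its tilt, `C` the completion of an algebraic closure of
`K`, and `F = C♭`. Closed subsets of projective space are given by their cones, and
`Approximable T K E X d` is Q1 for a closed subset `X` of dimension `d` defined over `K`: for all
homogeneous polynomials `P_k` over `K` which vanish on `X` and all `ε > 0` there is a closed subset `Y` of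
dimension `d` defined over `E = K♭` with `|P_k(y♯)| ≤ ε ‖y‖ ^ (deg P_k)` for all `k` and all points `y` of
`Y`. `IsToricUnion K X d`: `X` has dimension at most `d` and is the union of finitely many (at least one)
images of complete intersections in projective toric varieties under maps given by forms.

`Within a X' X δ`: for every point `x'` of the cone `X'` over `C` with coordinates of absolute value at most
`1` there is a point `x` of the cone `X` with `|x'_i - x_i| ≤ δ` for all `i`. So `X'` is contained in the
`δ`-neighbourhood of `X` in `ℙ^n(C)`.

Theorem. Let `X` be a nonempty closed subset of `ℙ^n` defined over `K`, of dimension at most `d`. Suppose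
that for every `δ > 0` there is a closed subset `X'` defined over `K` in the `δ`-neighbourhood of `X` such
that `X'` is a finite union of images of complete intersections in toric varieties, of dimension `d`, or
Q1 holds for `X'` (with dimension `d`). Then the dimension of `X` is `d` and Q1 holds for `X`.

So the set of the `X` of dimension `d` for which Q1 holds is closed for the `p`-adic topology (the
topology of the Hausdorff distance on `ℙ^n(C)`). In particular (`Pool.Agent.K7.H6.PT.family`,
`family_irreducible`) Q1 for the general member of an algebraic family of closed subsets of `ℙ^n` of
dimension `d` implies Q1 for all members of dimension `d` of the family: in the proof of Q1 it is enough to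
consider general members of the components of the Hilbert schemes, and Q1 holds for all degenerations of
the varieties for which it is known. For example, it holds for all limits of determinantal varieties
(these are not determinantal in general), of images of complete intersections, and so on.

Proof. Let `S_k` be equations of `X` over `K`, and `S'_k` equations of `X'`. The main point is that a point of
the unit ball where all `S'_k` are at most `η` is at distance at most `δ` from a point of `X'`, if `η` is small
(`tube`). For this we may assume that the `S'_k` generate a prime ideal (the intersection of the minimal
primes is nilpotent modulo the ideal). Consider a Noether normalisation `U : X' → 𝔸^m` (`noether`). For a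
linear form `l` let `H_l(u, t)` be the minimal polynomial of `l` over the ring `C[u]`; as this ring is
integrally closed, all the roots of `H_l(u, t)` are values of `l` at points of `X'` over `u` (extension of
homomorphisms along integral ring extensions). If the `S'_k` are small at `v`, then so is
`H_l(U(v), l(v))`, hence there is a point `y_l` of `X'` over `U(v)` such that `l(v) - l(y_l)` is small. As the
number of the points over `U(v)` is bounded, there is one point `y` with `y = y_l` for `n + 1` different
linear forms `l = ∑ s^i x_i`, hence `v - y` is small (interpolation, `coeff_le`). Now let `W` be an
approximation of `X'` over `E`, with an error less than `η`. Then for all points `w` of `W` in the unit ball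
the point `w♯` is near a point of `X'`, hence near a point of `X`, and the equations of `X` are small at `w♯`.
By the Nullstellensatz over `C` this suffices for Q1 (`approx_of_system` of the starting library).
-/

set_option autoImplicit false

namespace Pool.Agent.Results.MP_db3ab1_ag.ClosedUnderLimits

open MvPolynomial Pool.Agent.Y129.TA Pool.Agent.Y129.TB Pool.Agent.R388.TP Pool.Agent.K7.H6.PT

/-- Q1 holds for all `p`-adic limits of closed subsets for which Q1 holds or which are finite unions
of images of complete intersections in toric varieties. -/
theorem result {p : ℕ} [Fact p.Prime] {C F K E : Type} [Field C] [Field F] [CharP F p] [Field K]
    [Field E] [Algebra K C] [Algebra E F] [IsAlgClosed C] [IsAlgClosed F] (T : Tilting p C F)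
    (B : BaseField T K E) {n d : ℕ} {X : Set (Fin (n + 1) → C)} (hX : IsConeOver K X)
    (hne : X.Nonempty) (hd : DimLEOver K X d)
    (hlim : ∀ δ : ℝ, 0 < δ → ∃ X' : Set (Fin (n + 1) → C),
      (IsToricUnion K X' d ∨ IsConeOver K X' ∧ Approximable T.toTiltPair K E X' d) ∧
        Within T.absK X' X δ) :
    DimGE X d ∧ Approximable T.toTiltPair K E X d :=
  limit_main T B hX hne hd hlim

end Pool.Agent.Results.MP_db3ab1_ag.ClosedUnderLimits
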