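import Pool.Agent.K7.H6.PT.Move

/-!
# Q1 does not depend on the base field

The setting and the notions `Tilting`, `BaseField`, `IsConeOver`, `DimLEOver`, `Approximable`, `GaloisLift`
are those of the starting files `AllPerfectoidFields` and `DescentOfBaseField`: `K` is a perfectoid field
of characteristic `0`, `E = K♭` its tilt, `C` the completion of an algebraic closure of `K`, and
`F = C♭`, which contains `E`. Closed subsets of projective space are given by their cones, and
`Approximable T K E X d` is Q1 over `K` for a closed subset `X` of dimension `d` defined over `K`: for all
homogeneous polynomials `P_k` over `K` which vanish on `X` and all `ε > 0` there is a closed subset `Y` of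
dimension `d` defined over `E = K♭` with `|P_k(y♯)| ≤ ε ‖y‖ ^ (deg P_k)` for all `k` and all points `y` of
`Y` (over `F`). `Approximable T C F X d` is Q1 for `X_C`: the same with polynomials over `C`, and with `Y`
defined over `F = C♭` only.

`E'` is the algebraic closure of `E` in `F`. By the tilting equivalence `F` is the completion of `E'`, so `E'`
is dense in `F` (`IsDenseIn`), and it is algebraically closed (Krasner). `GaloisLift T K E E'`: every
`E`-homomorphism from `E'` to `F` is the restriction of an isometric automorphism of `F` which corresponds
under `♯` to an automorphism of `C` over `K`. This is well known (the homomorphism is an isometric
automorphism of `E'` over `E`; it extends to `F`, and the tilting equivalence gives the automorphism of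
`C`), and was used in the same way in `DescentOfBaseField`.

Theorem. Let `X` be a closed subset of `ℙ^n` defined over `K`, of dimension at most `d`. Then Q1 holds for
`X` over `K`, with approximating varieties over `K♭`, if and only if Q1 holds for `X_C` over `C`, with
approximating varieties over `C♭`.

So Q1 is a geometric property of `X`: it is independent of the perfectoid field of definition, and in Q1
one may assume that `K` is algebraically closed. For example, if Q1 holds over `ℂ_p` for all smooth `X`
which are defined over `K`, where `K` is the completion of `k(ϖ^{1/p^∞})`, `k` a local field, then it holds
over `K`, and by Scholze's argument the weight-monodromy conjecture holds for the smooth projective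
varieties over `k`.

The starting file `DescentOfBaseField` contains the descent from algebraic extensions `K'` of `K`, with
approximating varieties over the tilt of `K'`. The new points are that varieties `Y` over the
transcendental extension `F` of `E` may be replaced by varieties over `E'`, and the converse.

Proof. Let `Y` be defined by forms `G_k` over `F`, of dimension `d`, and suppose that it satisfies the
conditions for `ε`. Let `c` be the vector of the coefficients of the `G_k`, and let `V` be the closure of the
point `c` over `E'`. There is a point `c'` of `V` over `E'` which is as near to `c` as we wish
(`spec_point`): consider a Noether normalisation `U` of `V` and a point `u'` over `E'` near `U(c)`; by the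
continuity of the roots of the minimal polynomials of the linear forms over the ring `E'[u]` one of the
finitely many points of `V` over `u'` is near `c`. The forms `G'_k` with the coefficients `c'` have a zero set
`Y'` of dimension at least `d`, because the common zeros of the `G_k` and of `d` forms over `E'` specialise
(extension of the homomorphism `c ↦ c'` to a valuation ring of `F`; `dimGE_spec`), and `d` forms over `F`
without common zeros on `Y'` could be replaced by such forms over `E'`. The dimension of `Y'` is at most
`d` by the Nullstellensatz. The points of `Y'` in the unit ball are near points of `Y` (`tube`: the sets
where the equations are small are contained in small metric neighbourhoods), and the map `y ↦ P_k(y♯)` is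
uniformly continuous on the unit ball (`sharp_cont`). Hence `Y'` satisfies the same conditions, up to `ε`, and
is defined over `E'`. Finally the descent theorem of the starting library is applied to the algebraic
extension `E'` of `E`. The converse follows from the Nullstellensatz over `C`.
-/

set_option autoImplicit false

namespace Pool.Agent.Results.MP_db3ab1_ag.IndependenceOfBaseField

open MvPolynomial Pool.Agent.Y129.TA Pool.Agent.Y129.TB Pool.Agent.R388.TP Pool.Agent.K7.H6.PT

/-- Q1 for `X` over `K` (with approximating varieties over `E = K♭`) holds if and only if Q1 holds for `X`
over `C` (with approximating varieties over `F = C♭`); `E'` is the algebraic closure of `E` in `F`. -/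
theorem result {p : ℕ} [Fact p.Prime] {C F K E E' : Type} [Field C] [Field F] [CharP F p]
    [Field K] [Field E] [Field E'] [Algebra K C] [Algebra E F] [Algebra E' F] [Algebra E E']
    [IsScalarTower E E' F] [IsAlgClosed C] [IsAlgClosed F] [Algebra.IsAlgebraic E E']
    [IsAlgClosed E'] (T : Tilting p C F) (B : BaseField T K E)
    (hdense : IsDenseIn E' F T.absF) (hG : GaloisLift T.toTiltPair K E E') {n d : ℕ}
    {X : Set (Fin (n + 1) → C)} (hX : IsConeOver K X) (hd : DimLEOver K X d) :
    Approximable T.toTiltPair K E X d ↔ Approximable T.toTiltPair C F X d :=
  base_iff T B hdense hG hX hd

end Pool.Agent.Results.MP_db3ab1_ag.IndependenceOfBaseField
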