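import Pool.Agent.K7.H6.PT.Kum

/-!
# Q1 is a lifting problem modulo arbitrarily small powers of `p` for the Kummer coverings

The setting and the notions `Tilting`, `BaseField`, `IsConeOver`, `DimGE`, `DimLE`, `DimLEOver`,
`Approximable`, `powPreimage` are those of the starting files `AllPerfectoidFields` and `KummerCoverings`:
`K` is a perfectoid field of characteristic `0`, `E = K♭` its tilt, `C` the completion of an algebraic
closure of `K`, and `F = C♭`. Closed subsets of projective space are given by their cones, and
`Approximable T K E X d` is Q1 for a closed subset `X` of dimension `d` defined over `K`: for all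
homogeneous polynomials `P_k` over `K` which vanish on `X` and all `ε > 0` there is a closed subset `Y` of
dimension `d` defined over `E = K♭` with `|P_k(y♯)| ≤ ε ‖y‖ ^ (deg P_k)` for all `k` and all points `y` of
`Y`. `powPreimage (p ^ M) X` is the Kummer covering `X_M` of `X`: the preimage of `X` under the map
`(x_0 : ... : x_n) ↦ (x_0 ^ (p ^ M) : ... : x_n ^ (p ^ M))` from `ℙ^n` to itself. (The inverse limit of the
`X_M` is the perfectoid covering of `X` in `(ℙ^n)^perf`.)

`HasApprox T E Z d r`: there is a closed subset `Y` of `ℙ^n` defined over `E`, of dimension `d`, such that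
for every point `y` of `Y` in the unit ball of `F^{n+1}` there is a point `z` of `Z` with `|y_i♯ - z_i| ≤ r` for
all `i`. For `r = |p|^a`, `0 < a ≤ 1`, this is a condition on `Z` modulo `p^a` only: as `O_F / (p♭)^a` is
`O_C / p^a`, it says that the points of `Y` with coordinates in `O_F` are, modulo `(p♭)^a`, points of
the reduction of `Z` modulo `p^a`.

Theorem. Let `X` be a nonempty closed subset of `ℙ^n` defined over `K`, of dimension at most `d`. The
following are equivalent:

* Q1 holds for `X` (with dimension `d`);
* for all `M` and all `r > 0` the Kummer covering `X_M` is approximated up to `r` (`HasApprox`);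
* for some `r < 1`, which may be arbitrarily near to `1`, and arbitrarily large `M`, the Kummer covering `X_M`
  is approximated up to `r`;
* for every `ε > 0` there are `M` and `r` with `r ^ (p ^ M) ≤ ε` such that `X_M` is approximated up to `r`.

So it is enough to approximate the reductions of the `X_M` modulo `p^a` for one fixed, arbitrarily small
`a > 0`, and even modulo `p^{a_M}` where `a_M` tends to zero for `M → ∞`, if only `p^M a_M` is unbounded
(for example `a_M = M / p^M`): Q1 for `X` is equivalent to the problem to lift (up to a closed subset) the
reductions `X_M mod p^{a_M}` from `O_K / p^{a_M} = O_{K♭} / (p♭)^{a_M}` to `K♭`, without any condition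
of approximation to a given precision.

Proof. If Q1 holds for `X` then it holds for `X_M` (starting file `KummerCoverings`), and small tubes around
`X_M` are contained in small metric neighbourhoods (`tube`: Noether normalisation, continuity of the roots
of the minimal polynomials of many linear forms, and interpolation). Conversely, if `Y` approximates
`X_M` up to `r`, let `Y'` be the image of `Y` under the `M`-th power of Frobenius. It is defined over `E`, of the
same dimension, and for `y` in `Y` and `z` in `X_M` with `|y_i♯ - z_i| ≤ r` we have
`|(y_i ^ (p^M))♯ - z_i ^ (p^M)| ≤ δ`, where `δ` is small if `r ^ (p ^ M)` is small (`contract`): raising to the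
power `p` maps points at distance `ρ` to points at distance at most `max(ρ^p, |p| ρ)`. As `(z_i ^ (p^M))` is a
point of `X`, the equations of `X` are small on `Y'`, and this suffices for Q1 by the Nullstellensatz.
-/

set_option autoImplicit false

namespace Pool.Agent.Results.MP_db3ab1_ag.PrecisionAlongKummerTower

open MvPolynomial Pool.Agent.Y129.TA Pool.Agent.Y129.TB Pool.Agent.R388.TP Pool.Agent.K7.H6.PT

/-- Q1 for `X` is equivalent to the approximation of the Kummer coverings `X_M` up to a fixed `r < 1` for
arbitrarily large `M`, and to their approximation up to `r_M` with `r_M ^ (p ^ M)` arbitrarily small. -/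
theorem result {p : ℕ} [Fact p.Prime] {C F K E : Type} [Field C] [Field F] [CharP F p] [Field K]
    [Field E] [Algebra K C] [Algebra E F] [IsAlgClosed C] [IsAlgClosed F] (T : Tilting p C F)
    (B : BaseField T K E) {n d : ℕ} {X : Set (Fin (n + 1) → C)} (hX : IsConeOver K X)
    (hne : X.Nonempty) (hd : DimLEOver K X d) :
    List.TFAE [Approximable T.toTiltPair K E X d,
      ∀ (M : ℕ) (r : ℝ), 0 < r → HasApprox T.toTiltPair E (powPreimage (p ^ M) X) d r,
      ∃ r : ℝ, r < 1 ∧ ∀ M₀ : ℕ, ∃ M ≥ M₀, HasApprox T.toTiltPair E (powPreimage (p ^ M) X) d r,
      ∀ ε : ℝ, 0 < ε → ∃ (M : ℕ) (r : ℝ), r ^ p ^ M ≤ ε ∧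
        HasApprox T.toTiltPair E (powPreimage (p ^ M) X) d r] := by
  have : CharP E p := (algebraMap E F).charP (algebraMap E F).injective p
  exact tower_tfae T B hX hne hd

end Pool.Agent.Results.MP_db3ab1_ag.PrecisionAlongKummerTower
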