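import Pool.Agent.K7.H6.PT.Dense

/-!
# Reduction of Q1 to smooth varieties over a dense subfield, such as the algebraic numbers

The setting and the notions `Tilting`, `IsConeOver`, `DimGE`, `DimLE`, `Approximable` are those of the
starting file `AllPerfectoidFields`: `C` is an algebraically closed perfectoid field of characteristic `0`
and residue characteristic `p`, and `F = C♭`. Closed subsets of projective space are given by their cones,
and `Approximable T C F X d` is Q1 for a closed subset `X` of dimension `d` over `C`: for all homogeneous
polynomials `P_k` over `C` which vanish on `X` and all `ε > 0` there is a closed subset `Y` of dimension `d`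
over `F = C♭` with `|P_k(y♯)| ≤ ε ‖y‖ ^ (deg P_k)` for all `k` and all points `y` of `Y`.

`IsIrr Z`: `Z` is a nonempty irreducible closed cone. `IsSmooth X d`: `X` is the cone over a nonempty smooth
closed subset of `ℙ^n` of pure dimension `d`: it is closed, its dimension is at most `d`, every point lies
on an irreducible closed subset of `X` of dimension at least `d`, and the Jacobian criterion holds: the
gradients at a point `x ≠ 0` of `X` of the polynomials which vanish on `X` span a space (`conormal X x`) of
dimension at least `n - d`. (So the Zariski tangent space of `X ⊂ ℙ^n` at every point is of dimension `d`.
Every smooth closed subscheme of pure dimension `d` is of this form; in Q1 one may assume that `X` is of pure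
dimension.) `Within a X' X δ`: every point of the unit ball of the cone `X'` is at distance at most `δ`
from a point of the cone `X`.

Theorem. Let `C₀` be an algebraically closed subfield of `C` which is dense in `C`, for example the field of
the algebraic numbers in `C = ℂ_p`. Let `X` be a smooth closed subset of `ℙ^n` over `C`, of pure dimension
`d`, and let `δ₀ > 0`. If Q1 holds for all irreducible smooth closed subsets `X₀` of `ℙ^n` of dimension
`d` which are defined over `C₀` and lie in the `δ₀`-neighbourhood of `X`, then Q1 holds for `X`.

So Q1 for all smooth projective varieties over `ℂ_p` is equivalent to Q1 for the smooth projective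
varieties which are defined over number fields (embedded in `ℂ_p`). By the hand-in
`IndependenceOfBaseField` this covers all perfectoid fields `K` whose completed algebraic closure is
`ℂ_p`.

Proof. Let `S_k` be forms which generate the ideal of `X`, and let `c` be the vector of their coefficients.
There is a point `c'` over `C₀` which is arbitrarily near to `c` and satisfies all algebraic relations
over `C₀` between the coefficients (`spec_point`): take a Noether normalisation `U` of the closure `V` of
`c` over `C₀` and a point `u'` over `C₀` near `U(c)`; the finitely many points of `V` over `u'` are controlled by
the minimal polynomials of the linear forms, whose roots are continuous in `u`, and by interpolation one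
of them is near `c` (`near_prime`). Let `S'_k` be the forms with coefficients `c'`. Their zero set has
dimension at least `d`, because a common zero of the `S_k` and of `d` forms over `C₀` specialises to a common
zero of the `S'_k` and of these forms (extension of `c ↦ c'` to a valuation ring of `C`; `dimGE_spec`). Let
`X₀` be a component over `C₀` of dimension at least `d` of this zero set (`exists_component`, which uses
algebraically independent functions); it is irreducible also over `C` (`prime_irr`: expand polynomials
over `C` with respect to a basis of `C` over `C₀`). By the Nullstellensatz for the equations of `X`
together with the minors of size `n - d` of the Jacobian matrix, which have no common zero, the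
corresponding minors for the `S'_k` have no common zero on `X₀`, if `c'` is sufficiently near to `c`: so `X₀` is
smooth of dimension `d` (`smooth_spec`). It lies in a small neighbourhood of `X` (`tube`). Now Q1 for the
varieties `X₀` implies Q1 for the limit `X`, by the theorem of the hand-in `ClosedUnderLimits`.
-/

set_option autoImplicit false

namespace Pool.Agent.Results.MP_db3ab1_ag.ReductionToNumberFields

open MvPolynomial Pool.Agent.Y129.TA Pool.Agent.Y129.TB Pool.Agent.K7.H6.PT

/-- Q1 for a smooth `X` of pure dimension `d` over `C` follows from Q1 for the irreducible smooth `X₀` of
dimension `d` near `X` which are defined over the dense algebraically closed subfield `C₀`. -/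
theorem result {p : ℕ} [Fact p.Prime] {C F C₀ : Type} [Field C] [Field F] [CharP F p] [Field C₀]
    [Algebra C₀ C] [IsAlgClosed C] [IsAlgClosed F] [IsAlgClosed C₀] (T : Tilting p C F)
    (hdense : IsDenseIn C₀ C T.absK) {n d : ℕ} {X : Set (Fin (n + 1) → C)} (hX : IsSmooth X d)
    {δ₀ : ℝ} (hδ₀ : 0 < δ₀)
    (h : ∀ X₀ : Set (Fin (n + 1) → C), IsConeOver C₀ X₀ → IsIrr X₀ → IsSmooth X₀ d →
      Within T.absK X₀ X δ₀ → Approximable T.toTiltPair C F X₀ d) :
    Approximable T.toTiltPair C F X d :=
  dense_main T hdense hX hδ₀ h

end Pool.Agent.Results.MP_db3ab1_ag.ReductionToNumberFields
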